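import Mathlib
import Pool.Agent.Q64.CT.Almost
import Pool.Agent.Y159.Par.Parshin

/-!
# Parshin's conjecture and products with almost all abelian varieties

Let `g i` (`i` in a finite set `I`) be positive integers, `r` an integer smaller than all the `g i`
and `E` a number field.  For a prime power `q` let `S i` be the set of the characteristic
polynomials of Frobenius of the ordinary abelian varieties of dimension `g i` over the field with `q`
elements, or of all abelian varieties of dimension `g i`, or any set in between.  By Weil, Honda and
Tate its elements correspond to the isogeny classes, the first set contains `ordinaryWeilPolys q
(g i)`, and the second one is contained in `weilPolys q (g i)`.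

For all families `f i` in `S i` with the exception of a proportion `O (q ^ (-1 / 6) log q)`, the
constant depending only on `g`, `r` and `E`, the following holds for all `s > 0`, `Q = q ^ s`, all
abelian varieties `A` over the field with `Q` elements which are isogenous to products of powers of
abelian varieties coming from the field with `q` elements, with characteristic polynomials `f i`,
and **all** smooth projective varieties `Z` over the field with `Q` elements such that

* the eigenvalues of Frobenius on the cohomology of `Z` and their conjugates generate a group of rank
  at most `r` modulo the group of the numbers with a power in `E`;
* homologically trivial self-correspondences of degree zero of `A × Z` are nilpotent, for instance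
  the motive of `Z` is finite-dimensional in the sense of Kimura and O'Sullivan. This is known for
  all varieties dominated by products of curves, and for their products with `A`.

There are finitely many products `D j` of `deg j` divisor classes on `A` such that for all `m` the
groups `T = K_m ⊗ ℚ` with their Adams eigenspaces `T^i = K_m^(i)` satisfy
`T^i(A × Z) = ⨁ D j × T^(i - deg j)(Z)` for all `i`. In particular **`K_m(A × Z) ⊗ ℚ = 0` if and only
if `K_m(Z) ⊗ ℚ = 0`: the conjecture of Parshin holds for `A × Z` if and only if it holds for `Z`.** If
`Z` is a curve it holds for `A × Z`, by the theorems quoted in the question. The Frobenius endomorphism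
acts on `K_m(A × Z)^(i)` as multiplication by `Q ^ i`.

For `r = 0` the assumption on the eigenvalues is: the eigenvalues of Frobenius and their conjugates
have powers in `E`.  If for instance `Z` is any given variety over the field with `q'` elements, one
can take for `E` the field generated by the eigenvalues of Frobenius and their conjugates, and
applies the theorem to the powers `q` of `q'`.

The framework (`TheoryData`, `IsChow`, `IsWeil`) is the one of helper492: the Chow groups `C` with
their pull-backs, push-forwards and products, and a Weil cohomology theory `H` with coefficients in
an algebraically closed field `F`, on a class `𝒱` of smooth proper varieties over `k`.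

The idea of the proof: by a sieve (helper521), which only uses the primes that split completely in
the Galois closure of `E` - these have positive density by the theorem of Chebotarev, formalized by
helper401 - almost all families are such that each pair `α`, `q / α` of roots can be exchanged by a
Galois automorphism which fixes all the other roots of all the `f i` and also all elements of `E`.
It follows that the generalized eigenvectors of Frobenius in the cohomology of `A × Z` for the
eigenvalues `Q ^ i` are sums of products of classes of products `D j` of divisors on `A` and of classes
on `Z`. Let `p` be the projector given by the `D j` and dual classes, and `P` a polynomial killing all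
the other eigenvalues and with `P (Q ^ i) = 1`. The correspondence `(1 - p) P (F)` is homologically
trivial, hence nilpotent; as it acts on `CH^i(A × Z, m)_ℚ` as the idempotent `1 - p`, this idempotent is
zero (helper484; the idea to play the eigenvalues of Frobenius off against nilpotence is due to
Soulé, Geisser and Kahn).
-/

set_option autoImplicit false

namespace Pool.Agent.Results.MP_27fd67_ag.AlmostAllAbelianFactors

open Polynomial Pool.Agent.W521.Descent Pool.Agent.W521.Count Pool.Agent.W484.TB
  Pool.Agent.W484.CK Pool.Agent.Y159.Par Pool.Agent.Q64.CT

/-- **`K_m(A × Z)` is torsion if and only if `K_m(Z)` is torsion, for almost all abelian varieties `A` and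
all `Z` with the above properties.** -/
theorem result {I : Type} [Fintype I] (g : I → ℕ) (r : ℕ) (hr : ∀ i, r < g i)
    (E : IntermediateField ℚ ℂ) [FiniteDimensional ℚ E] :
    ∃ C : ℝ, ∀ q : ℕ, IsPrimePow q → ∀ S : I → Set ℤ[X],
      (∀ i, ordinaryWeilPolys q (g i) ⊆ S i ∧ S i ⊆ weilPolys q (g i)) →
      (∀ i, (S i).Finite ∧ (S i).Nonempty) ∧
      ({f : I → ℤ[X] | (∀ i, f i ∈ S i) ∧ ¬ ParshinForRankOver E q r f}.ncard : ℝ) ≤
        C * (Real.log q * (q : ℝ) ^ (-(1 / 6) : ℝ)) * ∏ i, ((S i).ncard : ℝ) :=
  countA g r hr E (fun q f => ParshinForRankOver E q r f) fun _ hq x hx =>
    parshinForRankOver_of_motivic (motivicForRankOver_of_good g E hq r hr x hx)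

end Pool.Agent.Results.MP_27fd67_ag.AlmostAllAbelianFactors
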